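import Pool.Agent.helper26.EC.SpecE
import Pool.Agent.helper9.Tors.Divs
import Pool.Agent.helper85.BVP.Tau

set_option autoImplicit false

namespace Pool.Agent.EC

open Finset ArithmeticFunction
open Pool.Agent.CH (Win rgh dl eU Mo ClP ClB)
open Pool.Agent.CHS (PB WUp)

theorem PPW_sq (n : ℕ) (h : vonMangoldt n ≠ 0) (hp : ¬ n.Prime) : ∃ s : ℕ, s ^ 2 ∣ n ∧ n ≤ s ^ 3 := by
  rw [vonMangoldt_ne_zero_iff, isPrimePow_nat_iff] at h
  obtain ⟨q, k, hq, hk, rfl⟩ := h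
  have hk1 : k ≠ 1 := by
    rintro rfl
    rw [pow_one] at hp
    exact hp hq
  refine ⟨q ^ (k / 2), ?_, ?_⟩
  · rw [← pow_mul]
    exact pow_dvd_pow q (Nat.div_mul_le_self k 2)
  · rw [← pow_mul]
    refine Nat.pow_le_pow_right hq.pos ?_
    omega

theorem PPW_mult (a b p : ℕ) (hab : a ≤ b) (hp : 0 < p) :
    ((#((Ioc a b).filter fun j => p ∣ j) : ℕ) : ℝ) ≤ ((b - a : ℕ) : ℝ) / p + 1 := by
  have h1 : #((Ioc a b).filter fun j => p ∣ j) + #((Ioc 0 a).filter fun j => p ∣ j) =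
      #((Ioc 0 b).filter fun j => p ∣ j) := by
    rw [← Finset.card_union_of_disjoint]
    · congr 1
      ext x
      simp only [Finset.mem_union, Finset.mem_filter, Finset.mem_Ioc]
      constructor
      · rintro (⟨⟨h1, h2⟩, h3⟩ | ⟨⟨h1, h2⟩, h3⟩)
        · exact ⟨⟨by omega, h2⟩, h3⟩
        · exact ⟨⟨h1, by omega⟩, h3⟩
      · rintro ⟨⟨h1, h2⟩, h3⟩
        rcases Nat.lt_or_ge a x with h | h
        · exact Or.inl ⟨⟨h, h2⟩, h3⟩
        · exact Or.inr ⟨⟨h1, h⟩, h3⟩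
    · rw [Finset.disjoint_left]
      intro x hx hx'
      simp only [Finset.mem_filter, Finset.mem_Ioc] at hx hx'
      omega
  rw [Nat.Ioc_filter_dvd_card_eq_div, Nat.Ioc_filter_dvd_card_eq_div] at h1
  have h2 : b / p ≤ a / p + (b - a) / p + 1 := by
    have h3 := Nat.div_add_mod a p
    have h4 := Nat.div_add_mod (b - a) p
    have h5 := Nat.mod_lt a hp
    have h6 := Nat.mod_lt (b - a) hp
    have h7 : b < p * (a / p + (b - a) / p + 1 + 1) := by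
      have : b = a + (b - a) := by omega
      have e : p * (a / p + (b - a) / p + 1 + 1) = p * (a / p) + p * ((b - a) / p) + 2 * p := by ring
      rw [e]
      omega
    have := Nat.div_lt_of_lt_mul h7
    omega
  have h3 : #((Ioc a b).filter fun j => p ∣ j) ≤ (b - a) / p + 1 := by omega
  calc ((#((Ioc a b).filter fun j => p ∣ j) : ℕ) : ℝ) ≤ (((b - a) / p + 1 : ℕ) : ℝ) := by exact_mod_cast h3
    _ ≤ ((b - a : ℕ) : ℝ) / p + 1 := by
        push_cast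
        have := Nat.cast_div_le (α := ℝ) (m := b - a) (n := p)
        linarith

theorem PPW_win (N j : ℕ) (hN : 1 ≤ N) (hj : j ∈ Win N) : N ^ 3 < j ∧ j ≤ 8 * N ^ 3 := by
  unfold Win at hj
  rw [Finset.mem_Ioc] at hj
  refine ⟨hj.1, hj.2.trans ?_⟩
  have : N + 1 ≤ 2 * N := by omega
  calc (N + 1) ^ 3 ≤ (2 * N) ^ 3 := Nat.pow_le_pow_left this 3
    _ = 8 * N ^ 3 := by ring

open Classical in
theorem PPW_cnt (N : ℕ) (Y : ℝ) (hN : 8 ≤ N) (hY : 1 ≤ Y) :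
    ((#((Win N).filter fun m => ∃ s : ℕ, s ^ 2 ∣ m ∧ Y ≤ s) : ℕ) : ℝ) ≤
      14 * (N : ℝ) ^ 2 / Y + 3 * (N : ℝ) ^ (3 / 2 : ℝ) := by
  have hNr : (8 : ℝ) ≤ N := by exact_mod_cast hN
  obtain ⟨k, hk⟩ : ∃ k : ℕ, k = ⌈Y⌉₊ - 1 := ⟨_, rfl⟩
  have hceil : 1 ≤ ⌈Y⌉₊ := Nat.one_le_ceil_iff.2 (by linarith)
  have hk1 : Y ≤ (k : ℝ) + 1 := by
    have h1 : k + 1 = ⌈Y⌉₊ := by omega
    have h2 := Nat.le_ceil Y
    rw [← h1] at h2
    push_cast at h2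
    exact h2
  have hsub : ((Win N).filter fun m => ∃ s : ℕ, s ^ 2 ∣ m ∧ Y ≤ s) ⊆
      (Ioo k (Nat.sqrt (8 * N ^ 3) + 1)).biUnion fun s => (Win N).filter fun m => s ^ 2 ∣ m := by
    intro m hm
    rw [Finset.mem_filter] at hm
    obtain ⟨hmW, s, hs, hYs⟩ := hm
    rw [Finset.mem_biUnion]
    refine ⟨s, ?_, Finset.mem_filter.2 ⟨hmW, hs⟩⟩
    rw [Finset.mem_Ioo]
    obtain ⟨h1, h2⟩ := PPW_win N m (by omega) hmW
    constructor
    · have h3 : ⌈Y⌉₊ ≤ s := Nat.ceil_le.2 hYs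
      omega
    · have h3 : s ^ 2 ≤ 8 * N ^ 3 := (Nat.le_of_dvd (by omega) hs).trans h2
      have h4 : s ≤ Nat.sqrt (8 * N ^ 3) := Nat.le_sqrt'.2 h3
      omega
  have h1 : (#((Win N).filter fun m => ∃ s : ℕ, s ^ 2 ∣ m ∧ Y ≤ s) : ℕ) ≤
      ∑ s ∈ Ioo k (Nat.sqrt (8 * N ^ 3) + 1), #((Win N).filter fun m => s ^ 2 ∣ m) :=
    (Finset.card_le_card hsub).trans Finset.card_biUnion_le
  have hdiff : (((N + 1) ^ 3 - N ^ 3 : ℕ) : ℝ) ≤ 7 * (N : ℝ) ^ 2 := by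
    have h3 : (N + 1) ^ 3 - N ^ 3 ≤ 7 * N ^ 2 := by
      have e : (N + 1) ^ 3 = N ^ 3 + (3 * N ^ 2 + 3 * N + 1) := by ring
      rw [e, Nat.add_sub_cancel_left]
      nlinarith
    exact_mod_cast h3
  have h2 : (∑ s ∈ Ioo k (Nat.sqrt (8 * N ^ 3) + 1), (#((Win N).filter fun m => s ^ 2 ∣ m) : ℝ)) ≤
      ∑ s ∈ Ioo k (Nat.sqrt (8 * N ^ 3) + 1), (7 * (N : ℝ) ^ 2 * ((s : ℝ) ^ 2)⁻¹ + 1) := by
    refine Finset.sum_le_sum fun s hs => ?_
    rw [Finset.mem_Ioo] at hs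
    have hs0 : 0 < s ^ 2 := by
      have : 0 < s := by omega
      positivity
    have h3 := PPW_mult (N ^ 3) ((N + 1) ^ 3) (s ^ 2) (Nat.pow_le_pow_left (by omega) 3) hs0
    unfold Win
    refine h3.trans ?_
    have hs1 : (0 : ℝ) < ((s ^ 2 : ℕ) : ℝ) := by exact_mod_cast hs0
    have h4 : (((N + 1) ^ 3 - N ^ 3 : ℕ) : ℝ) / ((s ^ 2 : ℕ) : ℝ) ≤ 7 * (N : ℝ) ^ 2 / ((s ^ 2 : ℕ) : ℝ) :=
      div_le_div_of_nonneg_right hdiff hs1.le
    push_cast at h4 ⊢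
    rw [div_eq_mul_inv (7 * (N : ℝ) ^ 2)] at h4
    linarith
  have h3 : ∑ s ∈ Ioo k (Nat.sqrt (8 * N ^ 3) + 1), (7 * (N : ℝ) ^ 2 * ((s : ℝ) ^ 2)⁻¹ + 1) ≤
      7 * (N : ℝ) ^ 2 * (2 / ((k : ℝ) + 1)) + Nat.sqrt (8 * N ^ 3) := by
    rw [Finset.sum_add_distrib, ← Finset.mul_sum]
    have h4 := sum_Ioo_inv_sq_le (α := ℝ) k (Nat.sqrt (8 * N ^ 3) + 1)
    have h5 : ∑ _s ∈ Ioo k (Nat.sqrt (8 * N ^ 3) + 1), (1 : ℝ) ≤ Nat.sqrt (8 * N ^ 3) := by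
      rw [Finset.sum_const, nsmul_eq_mul, mul_one, Nat.card_Ioo]
      exact_mod_cast (by omega : Nat.sqrt (8 * N ^ 3) + 1 - k - 1 ≤ Nat.sqrt (8 * N ^ 3))
    exact add_le_add (mul_le_mul_of_nonneg_left h4 (by positivity)) h5
  have h4 : 7 * (N : ℝ) ^ 2 * (2 / ((k : ℝ) + 1)) ≤ 14 * (N : ℝ) ^ 2 / Y := by
    have e : 7 * (N : ℝ) ^ 2 * (2 / ((k : ℝ) + 1)) = 14 * (N : ℝ) ^ 2 / ((k : ℝ) + 1) := by ring
    rw [e]
    exact div_le_div_of_nonneg_left (by positivity) (by linarith) hk1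
  have h5 : (Nat.sqrt (8 * N ^ 3) : ℝ) ≤ 3 * (N : ℝ) ^ (3 / 2 : ℝ) := by
    have h6 : ((Nat.sqrt (8 * N ^ 3) : ℕ) : ℝ) ^ 2 ≤ 8 * (N : ℝ) ^ 3 := by
      exact_mod_cast Nat.sqrt_le' (8 * N ^ 3)
    have h7 : (3 * (N : ℝ) ^ (3 / 2 : ℝ)) ^ 2 = 9 * (N : ℝ) ^ 3 := by
      rw [mul_pow, ← Real.rpow_natCast ((N : ℝ) ^ (3 / 2 : ℝ)) 2, ← Real.rpow_mul (by positivity)]
      norm_num
    have h8 : ((Nat.sqrt (8 * N ^ 3) : ℕ) : ℝ) ^ 2 ≤ (3 * (N : ℝ) ^ (3 / 2 : ℝ)) ^ 2 := by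
      rw [h7]
      have : 0 ≤ (N : ℝ) ^ 3 := by positivity
      linarith
    exact (pow_le_pow_iff_left₀ (by positivity) (by positivity) (by norm_num)).1 h8
  have h9 : ((#((Win N).filter fun m => ∃ s : ℕ, s ^ 2 ∣ m ∧ Y ≤ s) : ℕ) : ℝ) ≤
      ∑ s ∈ Ioo k (Nat.sqrt (8 * N ^ 3) + 1), (#((Win N).filter fun m => s ^ 2 ∣ m) : ℝ) := by
    exact_mod_cast h1
  linarith

theorem PPW_large (c K : ℝ) (hc : 0 < c) (hK : 0 < K) : ∃ N₀ : ℕ, ∀ N : ℕ, N₀ ≤ N → 8 ≤ N ∧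
    K * Real.log N ≤ (N : ℝ) ^ c := by
  have h1 : ∀ᶠ x : ℝ in Filter.atTop, ‖Real.log x‖ ≤ (1 / K) * ‖x ^ c‖ :=
    (Asymptotics.isLittleO_iff.1 (isLittleO_log_rpow_atTop hc)) (by positivity)
  have h2 := tendsto_natCast_atTop_atTop (R := ℝ) |>.eventually h1
  have h5 : ∀ᶠ N : ℕ in Filter.atTop, 8 ≤ N := Filter.eventually_ge_atTop 8
  obtain ⟨N₀, hN₀⟩ := Filter.eventually_atTop.1 (h5.and h2)
  refine ⟨N₀, fun N hN => ?_⟩
  obtain ⟨a, b⟩ := hN₀ N hN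
  refine ⟨a, ?_⟩
  rw [Real.norm_eq_abs, Real.norm_of_nonneg (by positivity)] at b
  have h3 := (le_abs_self _).trans b
  calc K * Real.log N ≤ K * (1 / K * (N : ℝ) ^ c) := mul_le_mul_of_nonneg_left h3 hK.le
    _ = (N : ℝ) ^ c := by field_simp

open Classical in
theorem PPW_zero {r : ℕ} (a b : Fin r → ℝ) (hr : 4 ≤ r) (N m : ℕ) (hN : 8 ≤ N) (hm : m ∈ Win N)
    (h : ∑ p ∈ (TUP N a b m).filter (fun p => ¬ (m / ∏ i, p i).Prime), vonMangoldt (m / ∏ i, p i) ≠ 0) :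
    ∃ s : ℕ, s ^ 2 ∣ m ∧ (N : ℝ) ^ ((3 - ∑ i, b i) / 3) ≤ s := by
  obtain ⟨p, hp, hpne⟩ := Finset.exists_ne_zero_of_sum_ne_zero h
  rw [Finset.mem_filter] at hp
  obtain ⟨hpT, hpp⟩ := hp
  unfold TUP at hpT
  rw [Finset.mem_filter] at hpT
  obtain ⟨_, hpb, hpd⟩ := hpT
  obtain ⟨s, hs1, hs2⟩ := PPW_sq _ hpne hpp
  refine ⟨s, hs1.trans (Nat.div_dvd_of_dvd hpd), ?_⟩
  have hNr : (0 : ℝ) < N := by exact_mod_cast (show 0 < N by omega)
  obtain ⟨hm1, _⟩ := PPW_win N m (by omega) hm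
  have hm0 : 0 < m := by omega
  have hP0 : 0 < ∏ i, p i := Nat.pos_of_dvd_of_pos hpd hm0
  have hPb : ((∏ i, p i : ℕ) : ℝ) ≤ (N : ℝ) ^ (∑ i, b i) := by
    rw [Real.rpow_sum_of_pos hNr]
    push_cast
    exact Finset.prod_le_prod (fun i _ => by positivity) fun i _ => (hpb i).2.le
  have hn : ((m / ∏ i, p i : ℕ) : ℝ) = (m : ℝ) / ((∏ i, p i : ℕ) : ℝ) :=
    Nat.cast_div hpd (by exact_mod_cast hP0.ne')
  have h1 : (N : ℝ) ^ (3 - ∑ i, b i) ≤ ((m / ∏ i, p i : ℕ) : ℝ) := by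
    rw [hn, Real.rpow_sub hNr]
    refine div_le_div₀ (by positivity) ?_ (by exact_mod_cast hP0) hPb
    rw [show (3 : ℝ) = ((3 : ℕ) : ℝ) by norm_num, Real.rpow_natCast]
    exact_mod_cast hm1.le
  have h2 : (N : ℝ) ^ (3 - ∑ i, b i) ≤ (s : ℝ) ^ 3 := h1.trans (by exact_mod_cast hs2)
  have h3 : ((N : ℝ) ^ ((3 - ∑ i, b i) / 3)) ^ 3 = (N : ℝ) ^ (3 - ∑ i, b i) := by
    rw [← Real.rpow_natCast ((N : ℝ) ^ ((3 - ∑ i, b i) / 3)) 3, ← Real.rpow_mul hNr.le]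
    congr 1
    push_cast
    ring
  rw [← h3] at h2
  exact (pow_le_pow_iff_left₀ (by positivity) (by positivity) (by norm_num)).1 h2

theorem PPW : PPW_stmt := by
  classical
  intro r a b hAd
  obtain ⟨hr, _, _, hb⟩ := hAd
  obtain ⟨c₀, hc₀⟩ : ∃ c₀ : ℝ, c₀ = min ((3 - ∑ i, b i) / 3) (1 / 2) := ⟨_, rfl⟩
  have hc₀p : 0 < c₀ := by
    rw [hc₀]
    exact lt_min (by linarith) (by norm_num)
  have hc₀1 : c₀ ≤ (3 - ∑ i, b i) / 3 := by
    rw [hc₀]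
    exact min_le_left _ _
  have hc₀2 : c₀ ≤ 1 / 2 := by
    rw [hc₀]
    exact min_le_right _ _
  obtain ⟨e, he⟩ : ∃ e : ℝ, e = c₀ / (16 * (r + 1)) := ⟨_, rfl⟩
  have hr1 : (0 : ℝ) < 16 * (r + 1) := by positivity
  have hep : 0 < e := by
    rw [he]
    positivity
  obtain ⟨C, hC, hdiv⟩ := Pool.Agent.helper9.Tors.divisor_bound e hep
  obtain ⟨N₀, hN₀⟩ := PPW_large (c₀ / 4) (68 * C ^ (r + 1)) (by positivity) (by positivity)
  refine ⟨c₀ / 2, by positivity, N₀, fun N hN => ?_⟩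
  obtain ⟨hN8, hlog⟩ := hN₀ N hN
  have hNr : (8 : ℝ) ≤ N := by exact_mod_cast hN8
  have hNp : (0 : ℝ) < N := by linarith
  have hN1 : (1 : ℝ) ≤ N := by linarith
  have hL0 : 0 ≤ Real.log N := Real.log_nonneg hN1
  obtain ⟨Y, hY⟩ : ∃ Y : ℝ, Y = (N : ℝ) ^ ((3 - ∑ i, b i) / 3) := ⟨_, rfl⟩
  have hY1 : 1 ≤ Y := by
    rw [hY]
    exact Real.one_le_rpow hN1 (by linarith)
  -- the divisor bound up to `8 N^3`
  have hdv : ∀ n : ℕ, n ≠ 0 → n ≤ 8 * N ^ 3 → ((n.divisors.card : ℕ) : ℝ) ≤ C * (N : ℝ) ^ (4 * e) := by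
    intro n hn0 hn
    have h1 := hdiv n hn0
    have h2 : (n : ℝ) ≤ (N : ℝ) ^ (4 : ℝ) := by
      have h3 : (n : ℝ) ≤ 8 * (N : ℝ) ^ 3 := by exact_mod_cast hn
      have h4 : 8 * (N : ℝ) ^ 3 ≤ (N : ℝ) ^ 4 := by
        have : 0 ≤ (N : ℝ) ^ 3 := by positivity
        nlinarith
      rw [show (4 : ℝ) = ((4 : ℕ) : ℝ) by norm_num, Real.rpow_natCast]
      linarith
    have h5 : (n : ℝ) ^ e ≤ (N : ℝ) ^ (4 * e) := by
      rw [Real.rpow_mul hNp.le]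
      exact Real.rpow_le_rpow (Nat.cast_nonneg n) h2 hep.le
    exact h1.trans (mul_le_mul_of_nonneg_left h5 hC.le)
  obtain ⟨W, hW⟩ : ∃ W : ℝ, W = (C * (N : ℝ) ^ (4 * e)) ^ r * (4 * Real.log N) * (C * (N : ℝ) ^ (4 * e)) := ⟨_, rfl⟩
  have hW0 : 0 ≤ W := by
    rw [hW]
    positivity
  have hinner : ∀ m ∈ Win N,
      (∑ p ∈ (TUP N a b m).filter (fun p => ¬ (m / ∏ i, p i).Prime), vonMangoldt (m / ∏ i, p i)) *
        (#(m - 6).divisors : ℝ) ≤ W := by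
    intro m hm
    obtain ⟨hm1, hm2⟩ := PPW_win N m (by omega) hm
    have hN3 : 512 ≤ N ^ 3 := by
      calc 512 = 8 ^ 3 := by norm_num
        _ ≤ N ^ 3 := Nat.pow_le_pow_left hN8 3
    have hd1 := hdv m (by omega) hm2
    have hd2 := hdv (m - 6) (by omega) (by omega)
    have hlogm : Real.log m ≤ 4 * Real.log N := by
      have h4 : (m : ℝ) ≤ 8 * (N : ℝ) ^ 3 := by exact_mod_cast hm2
      have h5 := Real.log_le_log (by exact_mod_cast (show 0 < m by omega)) h4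
      rw [Real.log_mul (by norm_num) (by positivity), Real.log_pow] at h5
      have h6 : Real.log 8 ≤ Real.log N := Real.log_le_log (by norm_num) hNr
      push_cast at h5
      linarith
    have h1 : ∑ p ∈ (TUP N a b m).filter (fun p => ¬ (m / ∏ i, p i).Prime), vonMangoldt (m / ∏ i, p i) ≤
        (C * (N : ℝ) ^ (4 * e)) ^ r * (4 * Real.log N) := by
      calc ∑ p ∈ (TUP N a b m).filter (fun p => ¬ (m / ∏ i, p i).Prime), vonMangoldt (m / ∏ i, p i)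
          ≤ ∑ p ∈ (TUP N a b m).filter (fun p => ¬ (m / ∏ i, p i).Prime), 4 * Real.log N := by
            refine Finset.sum_le_sum fun p _ => ?_
            refine vonMangoldt_le_log.trans (le_trans ?_ hlogm)
            exact Pool.Agent.helper85.BVP.log_nat_le (Nat.div_le_self _ _)
        _ = (#((TUP N a b m).filter (fun p => ¬ (m / ∏ i, p i).Prime)) : ℝ) * (4 * Real.log N) := by
            rw [Finset.sum_const, nsmul_eq_mul]
        _ ≤ (C * (N : ℝ) ^ (4 * e)) ^ r * (4 * Real.log N) := by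
            refine mul_le_mul_of_nonneg_right ?_ (by positivity)
            have h2 : #((TUP N a b m).filter (fun p => ¬ (m / ∏ i, p i).Prime)) ≤ #m.divisors ^ r := by
              calc _ ≤ #(TUP N a b m) := Finset.card_filter_le _ _
                _ ≤ #(Fintype.piFinset fun _ : Fin r => m.primeFactors) := by
                    unfold TUP
                    exact Finset.card_filter_le _ _
                _ = #m.primeFactors ^ r := by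
                    rw [Fintype.card_piFinset]
                    simp
                _ ≤ #m.divisors ^ r := by
                    refine Nat.pow_le_pow_left (Finset.card_le_card ?_) r
                    intro q hq
                    exact Nat.mem_divisors.2 ⟨Nat.dvd_of_mem_primeFactors hq, by omega⟩
            calc (#((TUP N a b m).filter (fun p => ¬ (m / ∏ i, p i).Prime)) : ℝ) ≤ (#m.divisors : ℝ) ^ r := by
                  exact_mod_cast h2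
              _ ≤ _ := pow_le_pow_left₀ (Nat.cast_nonneg _) hd1 r
    rw [hW]
    exact mul_le_mul h1 hd2 (Nat.cast_nonneg _) (by positivity)
  calc ∑ m ∈ Win N, (∑ p ∈ (TUP N a b m).filter (fun p => ¬ (m / ∏ i, p i).Prime), vonMangoldt (m / ∏ i, p i)) *
        (#(m - 6).divisors : ℝ)
      ≤ ∑ m ∈ Win N, if ∃ s : ℕ, s ^ 2 ∣ m ∧ Y ≤ s then W else 0 := by
        refine Finset.sum_le_sum fun m hm => ?_
        by_cases h : ∃ s : ℕ, s ^ 2 ∣ m ∧ Y ≤ s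
        · rw [if_pos h]
          exact hinner m hm
        · rw [if_neg h]
          have h0 : ∑ p ∈ (TUP N a b m).filter (fun p => ¬ (m / ∏ i, p i).Prime),
              vonMangoldt (m / ∏ i, p i) = 0 := by
            by_contra hne
            apply h
            rw [hY]
            exact PPW_zero a b hr N m hN8 hm hne
          rw [h0, zero_mul]
    _ = ((#((Win N).filter fun m => ∃ s : ℕ, s ^ 2 ∣ m ∧ Y ≤ s) : ℕ) : ℝ) * W := by
        rw [← Finset.sum_filter, Finset.sum_const, nsmul_eq_mul]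
    _ ≤ (14 * (N : ℝ) ^ 2 / Y + 3 * (N : ℝ) ^ (3 / 2 : ℝ)) * W :=
        mul_le_mul_of_nonneg_right (PPW_cnt N Y hN8 hY1) hW0
    _ ≤ (17 * (N : ℝ) ^ (2 - c₀)) * W := by
        refine mul_le_mul_of_nonneg_right ?_ hW0
        have h1 : (N : ℝ) ^ 2 / Y ≤ (N : ℝ) ^ (2 - c₀) := by
          rw [hY, ← Real.rpow_natCast (N : ℝ) 2, ← Real.rpow_sub hNp]
          refine Real.rpow_le_rpow_of_exponent_le hN1 ?_
          push_cast
          linarith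
        have h2 : (N : ℝ) ^ (3 / 2 : ℝ) ≤ (N : ℝ) ^ (2 - c₀) :=
          Real.rpow_le_rpow_of_exponent_le hN1 (by linarith)
        have h3 : 14 * (N : ℝ) ^ 2 / Y = 14 * ((N : ℝ) ^ 2 / Y) := by ring
        rw [h3]
        linarith
    _ = (68 * C ^ (r + 1) * Real.log N) * ((N : ℝ) ^ (4 * e * (r + 1)) * (N : ℝ) ^ (2 - c₀)) := by
        have h1 : ((N : ℝ) ^ (4 * e)) ^ r * (N : ℝ) ^ (4 * e) = (N : ℝ) ^ (4 * e * (r + 1)) := by
          rw [← pow_succ, ← Real.rpow_natCast ((N : ℝ) ^ (4 * e)) (r + 1), ← Real.rpow_mul hNp.le]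
          push_cast
          rfl
        rw [hW, mul_pow, ← h1, pow_succ]
        ring
    _ ≤ (N : ℝ) ^ (c₀ / 4) * ((N : ℝ) ^ (4 * e * (r + 1)) * (N : ℝ) ^ (2 - c₀)) :=
        mul_le_mul_of_nonneg_right hlog (by positivity)
    _ = (N : ℝ) ^ (2 - c₀ / 2) := by
        rw [← Real.rpow_add hNp, ← Real.rpow_add hNp]
        congr 1
        rw [he]
        field_simp
        ring

end Pool.Agent.EC
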